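import Mathlib

/-!
# Lomonosov's theorem for compact operators without eigenvalues (Hilden's proof)

A nonzero compact operator `K` without eigenvalues on a complex Banach space has a nontrivial closed
hyperinvariant subspace.
-/

set_option autoImplicit false

open Filter Topology Metric Set
open scoped ENNReal NNReal

namespace Pool.Agent.RankOne

/-- A nontrivial closed hyperinvariant subspace of `T` exists. -/
def HasHyper {E : Type*} [NormedAddCommGroup E] [NormedSpace ℂ E] (T : E →L[ℂ] E) : Prop :=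
  ∃ W : Submodule ℂ E, IsClosed (W : Set E) ∧ W ≠ ⊥ ∧ W ≠ ⊤ ∧
    ∀ S : E →L[ℂ] E, S.comp T = T.comp S → ∀ x ∈ W, S x ∈ W

section
variable {E : Type*} [NormedAddCommGroup E] [NormedSpace ℂ E]

/-- The closure of the orbit of `y` under the commutant. -/
noncomputable def orb (T : E →L[ℂ] E) (y : E) : Submodule ℂ E :=
  Submodule.topologicalClosure
    { carrier := {x | ∃ S : E →L[ℂ] E, S.comp T = T.comp S ∧ x = S y}
      zero_mem' := ⟨0, by simp, by simp⟩
      add_mem' := by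
        rintro a b ⟨S, hS, rfl⟩ ⟨R, hR, rfl⟩
        exact ⟨S + R, by simp [ContinuousLinearMap.add_comp, ContinuousLinearMap.comp_add, hS, hR],
          by simp⟩
      smul_mem' := by
        rintro c a ⟨S, hS, rfl⟩
        exact ⟨c • S, by simp [ContinuousLinearMap.smul_comp, hS],
          by simp⟩ }

theorem isClosed_orb (T : E →L[ℂ] E) (y : E) : IsClosed (orb T y : Set E) :=
  Submodule.isClosed_topologicalClosure _

theorem mem_orb (T : E →L[ℂ] E) (y : E) {S : E →L[ℂ] E} (hS : S.comp T = T.comp S) :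
    S y ∈ orb T y := by
  apply Submodule.le_topologicalClosure
  exact ⟨S, hS, rfl⟩

theorem self_mem_orb (T : E →L[ℂ] E) (y : E) : y ∈ orb T y := by
  have := mem_orb T y (S := ContinuousLinearMap.id ℂ E) (by ext; simp)
  simpa using this

theorem orb_invariant (T : E →L[ℂ] E) (y : E) {S : E →L[ℂ] E} (hS : S.comp T = T.comp S) :
    ∀ x ∈ orb T y, S x ∈ orb T y := by
  intro x hx
  have h1 : (orb T y : Set E) ⊆ S ⁻¹' (orb T y : Set E) := by
    refine closure_minimal ?_ ((isClosed_orb T y).preimage S.continuous)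
    rintro z ⟨R, hR, rfl⟩
    have : (S.comp R).comp T = T.comp (S.comp R) := by
      rw [ContinuousLinearMap.comp_assoc, hR, ← ContinuousLinearMap.comp_assoc, hS,
        ContinuousLinearMap.comp_assoc]
    exact mem_orb T y this
  exact h1 hx

/-- approximation by the commutant if there is no hyperinvariant subspace -/
theorem orb_eq_top {T : E →L[ℂ] E} (h : ¬ HasHyper T) {y : E} (hy : y ≠ 0) : orb T y = ⊤ := by
  by_contra hne
  refine h ⟨orb T y, isClosed_orb T y, ?_, hne, fun S hS => orb_invariant T y hS⟩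
  intro hb
  apply hy
  have := self_mem_orb T y
  rw [hb] at this
  simpa using this

theorem exists_commutant_near {T : E →L[ℂ] E} (h : ¬ HasHyper T) {y : E} (hy : y ≠ 0) (x : E)
    {ε : ℝ} (hε : 0 < ε) : ∃ S : E →L[ℂ] E, S.comp T = T.comp S ∧ S y ∈ ball x ε := by
  have h1 : x ∈ orb T y := by rw [orb_eq_top h hy]; trivial
  have h2 : x ∈ closure {x : E | ∃ S : E →L[ℂ] E, S.comp T = T.comp S ∧ x = S y} := h1
  obtain ⟨z, ⟨S, hS, rfl⟩, hz⟩ := Metric.mem_closure_iff.1 h2 ε hε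
  exact ⟨S, hS, by rw [mem_ball, dist_comm]; exact hz⟩

/-- quasinilpotence of a compact operator without eigenvalues -/
theorem quasinilpotent [CompleteSpace E] [Nontrivial E] {K : E →L[ℂ] E} (hK : IsCompactOperator K)
    (hne : ∀ (ζ : ℂ) (f : E), K f = ζ • f → f = 0) (c : ℝ) (hc : 0 ≤ c) :
    Tendsto (fun n : ℕ => c ^ n * ‖K ^ n‖) atTop (𝓝 0) := by
  have hspec : ∀ μ ∈ spectrum ℂ K, μ = 0 := by
    intro μ hμ
    by_contra h0
    have h1 := (hK.hasEigenvalue_iff_mem_spectrum h0).2 hμ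
    obtain ⟨f, hf⟩ := h1.exists_hasEigenvector
    exact hf.2 (hne μ f (by simpa using hf.apply_eq_smul))
  have hrad : spectralRadius ℂ K = 0 := by
    rw [spectralRadius]
    refine le_antisymm ?_ zero_le
    refine iSup₂_le fun μ hμ => ?_
    rw [hspec μ hμ]
    simp
  have hlim := spectrum.pow_nnnorm_pow_one_div_tendsto_nhds_spectralRadius K
  rw [hrad] at hlim
  -- eventually ‖K^n‖^(1/n) < δ where c δ ≤ 1/2
  set δ : ℝ≥0 := Real.toNNReal (1 / (2 * (c + 1))) with hδ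
  have hδ0 : 0 < δ := by
    rw [hδ, Real.toNNReal_pos]; positivity
  have hev : ∀ᶠ n : ℕ in atTop, ‖K ^ n‖ ≤ (δ : ℝ) ^ n := by
    have h1 := hlim.eventually (gt_mem_nhds (show (0 : ℝ≥0∞) < (δ : ℝ≥0∞) by exact_mod_cast hδ0))
    filter_upwards [h1, eventually_gt_atTop 0] with n hn hn0
    have h2 : ((‖K ^ n‖₊ : ℝ≥0∞) ^ (1 / n : ℝ)) ^ (n : ℝ) ≤ (δ : ℝ≥0∞) ^ (n : ℝ) :=
      ENNReal.rpow_le_rpow hn.le (by positivity)
    rw [← ENNReal.rpow_mul, one_div_mul_cancel (by positivity), ENNReal.rpow_one,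
      ENNReal.rpow_natCast] at h2
    have h3 : ‖K ^ n‖₊ ≤ δ ^ n := by exact_mod_cast h2
    exact_mod_cast h3
  have hcd : c * δ ≤ 1 / 2 := by
    rw [hδ, Real.coe_toNNReal _ (by positivity)]
    rw [mul_one_div, div_le_div_iff₀ (by positivity) (by norm_num)]
    linarith
  have hev2 : ∀ᶠ n : ℕ in atTop, c ^ n * ‖K ^ n‖ ≤ (1 / 2 : ℝ) ^ n := by
    filter_upwards [hev] with n hn
    calc c ^ n * ‖K ^ n‖ ≤ c ^ n * (δ : ℝ) ^ n := by gcongr
      _ = (c * δ) ^ n := by rw [mul_pow]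
      _ ≤ (1 / 2) ^ n := by
          apply pow_le_pow_left₀ _ hcd
          positivity
  refine squeeze_zero' (Eventually.of_forall fun n => by positivity) hev2 ?_
  exact tendsto_pow_atTop_nhds_zero_of_lt_one (by norm_num) (by norm_num)

/-- **Lomonosov–Hilden.** -/
theorem lomonosov_hilden [CompleteSpace E] {K : E →L[ℂ] E} (hK : IsCompactOperator K)
    (hK0 : K ≠ 0) (hne : ∀ (ζ : ℂ) (f : E), K f = ζ • f → f = 0) : HasHyper K := by
  by_contra hcon
  obtain ⟨x0, hx0⟩ : ∃ x, K x ≠ 0 := by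
    by_contra h
    push Not at h
    exact hK0 (by ext x; simp [h x])
  have hx0' : x0 ≠ 0 := by
    rintro rfl
    simp at hx0
  have : Nontrivial E := ⟨⟨x0, 0, hx0'⟩⟩
  have hKpos : 0 < ‖K‖ := norm_pos_iff.2 hK0
  have hKx : 0 < ‖K x0‖ := norm_pos_iff.2 hx0
  set r : ℝ := min (‖x0‖ / 2) (‖K x0‖ / (2 * ‖K‖)) with hr
  have hr0 : 0 < r := lt_min (by have := norm_pos_iff.2 hx0'; positivity) (by positivity)
  -- the compact set
  set C : Set E := closure (K '' ball x0 r) with hC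
  have hCc : IsCompact C := by
    refine hK.isCompact_closure_image_of_bounded ?_
    exact isBounded_ball
  have hball : ∀ z ∈ ball x0 r, ‖K x0‖ / 2 ≤ ‖K z‖ := by
    intro z hz
    have h1 : ‖K (z - x0)‖ ≤ ‖K‖ * ‖z - x0‖ := K.le_opNorm _
    have h2 : ‖z - x0‖ < r := by simpa [dist_eq_norm] using hz
    have h3 : ‖K‖ * ‖z - x0‖ ≤ ‖K x0‖ / 2 := by
      calc ‖K‖ * ‖z - x0‖ ≤ ‖K‖ * (‖K x0‖ / (2 * ‖K‖)) := by
            gcongr
            exact h2.le.trans (min_le_right _ _)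
        _ = ‖K x0‖ / 2 := by field_simp
    have h4 : K x0 = K z - K (z - x0) := by rw [map_sub]; abel
    have h5 : ‖K x0‖ ≤ ‖K z‖ + ‖K (z - x0)‖ := by
      nth_rewrite 1 [h4]
      exact norm_sub_le _ _
    linarith
  have hC0 : ∀ y ∈ C, y ≠ 0 := by
    intro y hy hy0
    have h1 : C ⊆ {y | ‖K x0‖ / 2 ≤ ‖y‖} := by
      refine closure_minimal ?_ (isClosed_le continuous_const continuous_norm)
      rintro _ ⟨z, hz, rfl⟩
      exact hball z hz
    have h2 := h1 hy
    rw [mem_ofPred_eq, hy0, norm_zero] at h2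
    linarith
  -- cover
  have hcov : ∀ y : C, ∃ S : E →L[ℂ] E, S.comp K = K.comp S ∧ S y ∈ ball x0 r := fun y =>
    exists_commutant_near hcon (hC0 y y.2) x0 hr0
  choose S hS1 hS2 using hcov
  obtain ⟨t, ht⟩ := hCc.elim_finite_subcover (fun y : C => (S y) ⁻¹' ball x0 r)
    (fun y => isOpen_ball.preimage (S y).continuous)
    (fun y hy => mem_iUnion.2 ⟨⟨y, hy⟩, hS2 ⟨y, hy⟩⟩)
  -- bound of the norms
  obtain ⟨c, hc0, hc⟩ : ∃ c : ℝ, 0 ≤ c ∧ ∀ y ∈ t, ‖S y‖ ≤ c := by
    refine ⟨∑ y ∈ t, ‖S y‖, Finset.sum_nonneg fun _ _ => norm_nonneg _, fun y hy => ?_⟩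
    exact Finset.single_le_sum (f := fun y => ‖S y‖) (fun _ _ => norm_nonneg _) hy
  have hiter : ∀ n : ℕ, ∃ R : E →L[ℂ] E, R.comp K = K.comp R ∧ ‖R‖ ≤ c ^ n ∧
      R ((K ^ n) x0) ∈ ball x0 r := by
    intro n
    induction n with
    | zero =>
      refine ⟨ContinuousLinearMap.id ℂ E, by ext; simp, ?_, ?_⟩
      · simpa using ContinuousLinearMap.norm_id_le
      · simpa using hr0
    | succ n ih =>
      obtain ⟨R, hR1, hR2, hR3⟩ := ih
      have h1 : K (R ((K ^ n) x0)) ∈ C := subset_closure ⟨_, hR3, rfl⟩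
      obtain ⟨y, hy⟩ := mem_iUnion.1 (ht h1)
      obtain ⟨hyt, hy2⟩ := mem_iUnion.1 hy
      refine ⟨(S y).comp R, ?_, ?_, ?_⟩
      · rw [ContinuousLinearMap.comp_assoc, hR1, ← ContinuousLinearMap.comp_assoc, hS1,
          ContinuousLinearMap.comp_assoc]
      · calc ‖(S y).comp R‖ ≤ ‖S y‖ * ‖R‖ := ContinuousLinearMap.opNorm_comp_le _ _
          _ ≤ c * c ^ n := by
              gcongr
              exact hc y hyt
          _ = c ^ (n + 1) := by ring
      · have h2 : R ((K ^ (n + 1)) x0) = K (R ((K ^ n) x0)) := by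
          have h3 : (K ^ (n + 1)) x0 = K ((K ^ n) x0) := by
            rw [pow_succ']; rfl
          rw [h3]
          exact congrArg (fun A : E →L[ℂ] E => A ((K ^ n) x0)) hR1
        rw [ContinuousLinearMap.comp_apply, h2]
        exact hy2
  have hlim := (quasinilpotent hK hne c hc0).mul_const ‖x0‖
  rw [zero_mul] at hlim
  have hx0n : 0 < ‖x0‖ / 2 := by have := norm_pos_iff.2 hx0'; positivity
  obtain ⟨n, hn⟩ := (hlim.eventually (gt_mem_nhds hx0n)).exists
  obtain ⟨R, -, hR2, hR3⟩ := hiter n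
  have h1 : ‖R ((K ^ n) x0)‖ ≤ c ^ n * ‖K ^ n‖ * ‖x0‖ := by
    calc ‖R ((K ^ n) x0)‖ ≤ ‖R‖ * ‖(K ^ n) x0‖ := R.le_opNorm _
      _ ≤ c ^ n * (‖K ^ n‖ * ‖x0‖) := by
          gcongr
          exact (K ^ n).le_opNorm _
      _ = _ := by ring
  have h2 : ‖R ((K ^ n) x0) - x0‖ < ‖x0‖ / 2 := by
    have := mem_ball.1 hR3
    rw [dist_eq_norm] at this
    exact this.trans_le (min_le_left _ _)
  have h3 : ‖x0‖ ≤ ‖R ((K ^ n) x0)‖ + ‖R ((K ^ n) x0) - x0‖ := by
    have : x0 = R ((K ^ n) x0) - (R ((K ^ n) x0) - x0) := by abel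
    nth_rewrite 1 [this]
    exact norm_sub_le _ _
  linarith

/-- Scalar shifts do not change the commutant. -/
theorem HasHyper.of_sub_smul {T : E →L[ℂ] E} {ζ : ℂ}
    (h : HasHyper (T - ζ • ContinuousLinearMap.id ℂ E)) : HasHyper T := by
  obtain ⟨W, h1, h2, h3, h4⟩ := h
  refine ⟨W, h1, h2, h3, fun S hS => h4 S ?_⟩
  rw [ContinuousLinearMap.comp_sub, ContinuousLinearMap.sub_comp, hS]
  congr 1
  ext x
  simp

end

end Pool.Agent.RankOne
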